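import Pool.Agent.H438R3.BSD.Core

/-! A one-sided version of Landau's theorem that only uses analyticity along the real axis
(adapted from `H438R3.BSD.core`). -/

set_option autoImplicit false

open Complex Filter Topology Set

namespace Pool.Agent.H390R3.HW

open Pool.Agent.H438R3.BSD

/-- the part of the real axis to the right of `t` -/
def ray (t : ℝ) : Set ℂ := {s : ℂ | s.im = 0 ∧ t < s.re}

theorem ray_preconn (t : ℝ) : IsPreconnected (ray t) := by
  apply Convex.isPreconnected
  intro x hx y hy a b ha hb hab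
  refine ⟨by simp [hx.1, hy.1], ?_⟩
  have h1 : t < x.re := hx.2
  have h2 : t < y.re := hy.2
  simp only [add_re, real_smul, re_ofReal_mul]
  rcases eq_or_lt_of_le ha with h | h
  · rw [← h] at hab ⊢
    have : b = 1 := by linarith
    rw [this]; linarith
  · have h3 : 0 < a * (x.re - t) := mul_pos h (by linarith)
    have h4 : 0 ≤ b * (y.re - t) := mul_nonneg hb (by linarith)
    have h5 : a * x.re + b * y.re = a * (x.re - t) + b * (y.re - t) + (a + b) * t := by ring
    rw [h5, hab]
    linarith

theorem ofReal_mem_ray {t σ : ℝ} (h : t < σ) : (σ : ℂ) ∈ ray t := ⟨by simp, by simpa using h⟩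

theorem eq_ofReal_of_mem_ray {t : ℝ} {s : ℂ} (h : s ∈ ray t) : s = ((s.re : ℝ) : ℂ) := by
  apply Complex.ext <;> simp [h.1]

/-- the relation between `F` and the series spreads along the real axis -/
theorem spreadR (a : ℕ → ℂ) (ε : ℂ) (k : ℕ) (F W : ℂ → ℂ) (θ t : ℝ) (ht : θ ≤ t)
    (ht2 : t ≤ 3 / 2)
    (hF : ∀ σ : ℝ, θ < σ → AnalyticAt ℂ F σ)
    (hW : DifferentiableOn ℂ W {s | θ < s.re})
    (hrel : ∀ s : ℂ, 3 / 2 < s.re → F s = exp (W s + ε * (s - 1) ^ k * LSeries a s))
    (habs : LSeries.abscissaOfAbsConv a ≤ (t : EReal)) :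
    ∀ σ : ℝ, t < σ → ∀ᶠ s in 𝓝 (σ : ℂ), F s = exp (W s + ε * (s - 1) ^ k * LSeries a s) := by
  have hL : DifferentiableOn ℂ (LSeries a) {s : ℂ | t < s.re} := by
    intro s hs
    refine (LSeries_analyticOnNhd a s ?_).differentiableAt.differentiableWithinAt
    exact lt_of_le_of_lt habs (by exact_mod_cast hs)
  have hW' : DifferentiableOn ℂ W {s : ℂ | t < s.re} :=
    hW.mono (fun s (hs : t < s.re) => lt_of_le_of_lt ht hs)
  have hR : DifferentiableOn ℂ (fun s => exp (W s + ε * (s - 1) ^ k * LSeries a s))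
      {s : ℂ | t < s.re} := by
    apply DifferentiableOn.cexp
    apply hW'.add
    apply DifferentiableOn.mul _ hL
    fun_prop
  have h1 : AnalyticOnNhd ℂ F (ray t) := by
    intro s hs
    rw [eq_ofReal_of_mem_ray hs]
    exact hF _ (lt_of_le_of_lt ht hs.2)
  have h2 : AnalyticOnNhd ℂ (fun s => exp (W s + ε * (s - 1) ^ k * LSeries a s)) (ray t) :=
    (hR.analyticOnNhd (Pool.Agent.H438R3.BSD.isOpen_re_gt t)).mono (fun s hs => hs.2)
  have h3 := h1.eqOn_of_preconnected_of_eventuallyEq h2 (ray_preconn t)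
    (z₀ := (2 : ℂ)) ⟨by simp, by simp only [re_ofNat]; linarith⟩ (by
      have : {s : ℂ | 3 / 2 < s.re} ∈ 𝓝 (2 : ℂ) :=
        (Pool.Agent.H438R3.BSD.isOpen_re_gt (3 / 2)).mem_nhds (by show (3:ℝ) / 2 < (2 : ℂ).re; simp only [re_ofNat]; norm_num)
      filter_upwards [this] with s hs
      exact hrel s hs)
  intro σ hσ
  refine ((h1 _ (ofReal_mem_ray hσ)).frequently_eq_iff_eventually_eq
    (h2 _ (ofReal_mem_ray hσ))).1 ?_
  have h4 : Tendsto (fun x : ℝ => (x : ℂ)) (𝓝[≠] σ) (𝓝[≠] (σ : ℂ)) := by
    apply tendsto_nhdsWithin_of_tendsto_nhds_of_eventually_within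
    · exact Complex.continuous_ofReal.continuousAt.tendsto.mono_left nhdsWithin_le_nhds
    · filter_upwards [self_mem_nhdsWithin] with x hx
      intro h
      exact hx (Complex.ofReal_injective h)
  refine h4.frequently ?_
  have h5 : ∀ᶠ x : ℝ in 𝓝[≠] σ, t < x :=
    mem_nhdsWithin_of_mem_nhds (Ioi_mem_nhds hσ)
  exact (h5.mono fun x hx => h3 (ofReal_mem_ray hx)).frequently

theorem coreR (θ : ℝ) (hθ : 1 ≤ θ) (G : ℕ → ℝ) (hG : ∀ n, 0 ≤ G n) (ε : ℝ)
    (hε : ε = 1 ∨ ε = -1) (k : ℕ) (F W : ℂ → ℂ)
    (hF : ∀ σ : ℝ, θ < σ → AnalyticAt ℂ F σ) (hW : DifferentiableOn ℂ W {s | θ < s.re})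
    (hsum : ∀ s : ℂ, 3 / 2 < s.re → LSeriesSummable (fun n => (G n : ℂ)) s)
    (hrel : ∀ s : ℂ, 3 / 2 < s.re →
      F s = exp (W s + ε * (s - 1) ^ k * LSeries (fun n => (G n : ℂ)) s))
    (hreal : ε = -1 → ∀ σ : ℝ, θ < σ → F σ ≠ 0) :
    ∀ s : ℂ, θ < s.re → LSeriesSummable (fun n => (G n : ℂ)) s := by
  set a : ℕ → ℂ := fun n => (G n : ℂ) with ha
  have hup : LSeries.abscissaOfAbsConv a ≤ ((3 / 2 : ℝ) : EReal) :=
    LSeries.abscissaOfAbsConv_le_of_forall_lt_LSeriesSummable fun y hy =>
      hsum y (by simpa using hy)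
  have hε2 : (ε : ℂ) * ε = 1 := by
    rcases hε with h | h <;> rw [h] <;> push_cast <;> ring
  have hone : LSeries.abscissaOfAbsConv a ≤ ((θ : ℝ) : EReal) := by
    by_contra hcon
    push Not at hcon
    obtain ⟨a0, ha0⟩ : ∃ a0 : ℝ, LSeries.abscissaOfAbsConv a = (a0 : EReal) := by
      induction h : LSeries.abscissaOfAbsConv a using EReal.rec with
      | bot => rw [h] at hcon; exact absurd hcon (by simp)
      | coe x => exact ⟨x, rfl⟩
      | top => rw [h] at hup; exact absurd hup (by simp)
    rw [ha0] at hcon hup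
    have h1a : θ < a0 := by exact_mod_cast hcon
    have h1b : 1 < a0 := lt_of_le_of_lt hθ h1a
    have ha32 : a0 ≤ 3 / 2 := by exact_mod_cast hup
    have hR := spreadR a ε k F W θ a0 h1a.le ha32 hF hW hrel ha0.le
    have hWc : ContinuousAt W (a0 : ℂ) :=
      (hW.differentiableAt ((Pool.Agent.H438R3.BSD.isOpen_re_gt θ).mem_nhds (by simpa using h1a))).continuousAt
    have hFa : AnalyticAt ℂ F (a0 : ℂ) := hF a0 h1a
    -- `F a0 ≠ 0`
    have hF0 : F a0 ≠ 0 := by
      rcases hε with h | h
      · intro h0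
        have t1 : Tendsto (fun σ : ℝ => ‖F σ‖) (𝓝[>] a0) (𝓝 ‖F a0‖) := by
          have : ContinuousAt (fun σ : ℝ => ‖F σ‖) a0 := by
            apply ContinuousAt.norm
            exact ContinuousAt.comp (f := fun σ : ℝ => (σ : ℂ)) hFa.continuousAt
              Complex.continuous_ofReal.continuousAt
          exact this.tendsto.mono_left nhdsWithin_le_nhds
        have t2 : Tendsto (fun σ : ℝ => Real.exp (W σ).re) (𝓝[>] a0) (𝓝 (Real.exp (W a0).re)) := by
          have hc : ContinuousAt (fun σ : ℝ => Real.exp (W σ).re) a0 := by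
            apply Real.continuous_exp.continuousAt.comp
            apply Complex.continuous_re.continuousAt.comp
            exact ContinuousAt.comp (f := fun σ : ℝ => (σ : ℂ)) hWc Complex.continuous_ofReal.continuousAt
          exact hc.tendsto.mono_left nhdsWithin_le_nhds
        have h3 : Real.exp (W a0).re ≤ ‖F a0‖ := by
          refine le_of_tendsto_of_tendsto t2 t1 ?_
          filter_upwards [self_mem_nhdsWithin] with σ hσ
          have hσ' : a0 < σ := hσ
          rw [(hR σ hσ').self_of_nhds, Complex.norm_exp, h]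
          apply Real.exp_le_exp.2
          simp only [add_re]
          have h4 := re_LSeries_nonneg G hG σ
          have h5 : ((((1 : ℝ) : ℂ)) * ((σ : ℂ) - 1) ^ k * LSeries a σ).re =
              (σ - 1) ^ k * (LSeries a σ).re := by
            have : (((1 : ℝ) : ℂ)) * ((σ : ℂ) - 1) ^ k = (((σ - 1) ^ k : ℝ) : ℂ) := by
              push_cast; ring
            rw [this, Complex.re_ofReal_mul]
          rw [h5]
          have h6 : 0 ≤ (σ - 1) ^ k * (LSeries a σ).re :=
            mul_nonneg (pow_nonneg (by linarith) k) h4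
          linarith
        rw [h0, norm_zero] at h3
        exact absurd h3 (not_le.2 (Real.exp_pos _))
      · exact hreal h a0 h1a
    -- a logarithm near `a0`
    have hq : ContinuousAt (fun s => F s / F a0) (a0 : ℂ) :=
      hFa.continuousAt.div_const _
    obtain ⟨r1, hr1, hball⟩ := Metric.continuousAt_iff.1 hq 1 one_pos
    obtain ⟨r2, hr2, hball2⟩ := Metric.eventually_nhds_iff_ball.1 hFa.eventually_analyticAt
    set r := min (min r1 r2) (a0 - θ) with hr
    have hr0 : 0 < r := lt_min (lt_min hr1 hr2) (by linarith)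
    have hFd : ∀ s ∈ Metric.ball (a0 : ℂ) r, DifferentiableAt ℂ F s := by
      intro s hs
      refine (hball2 s ?_).differentiableAt
      exact Metric.ball_subset_ball ((min_le_left _ _).trans (min_le_right _ _)) hs
    have hslit : ∀ s ∈ Metric.ball (a0 : ℂ) r, F s / F a0 ∈ slitPlane := by
      intro s hs
      have h2 := hball (lt_of_lt_of_le (Metric.mem_ball.1 hs)
        ((min_le_left _ _).trans (min_le_left _ _)))
      rw [div_self hF0, dist_eq_norm] at h2
      have h3 := Complex.mem_slitPlane_of_norm_lt_one h2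
      simpa using h3
    have hre : ∀ s ∈ Metric.ball (a0 : ℂ) r, θ < s.re := by
      intro s hs
      have h2 : ‖s - a0‖ < a0 - θ := by
        have := Metric.mem_ball.1 hs
        rw [dist_eq_norm] at this
        exact lt_of_lt_of_le this (min_le_right _ _)
      have h3 := (abs_lt.1 ((Complex.abs_re_le_norm (s - a0)).trans_lt h2)).1
      simp only [sub_re, ofReal_re] at h3
      linarith
    set Lg : ℂ → ℂ := fun s => Complex.log (F s / F a0) + Complex.log (F a0) with hLg
    have hLgd : DifferentiableOn ℂ Lg (Metric.ball (a0 : ℂ) r) := by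
      intro s hs
      have h2 : DifferentiableAt ℂ (fun s => F s / F a0) s := (hFd s hs).div_const _
      exact ((h2.clog (hslit s hs)).add_const _).differentiableWithinAt
    have hexpLg : ∀ s ∈ Metric.ball (a0 : ℂ) r, exp (Lg s) = F s := by
      intro s hs
      rw [hLg]
      simp only
      have h2 := Complex.slitPlane_ne_zero (hslit s hs)
      rw [Complex.exp_add, Complex.exp_log h2, Complex.exp_log hF0, div_mul_cancel₀ _ hF0]
    set c : ℝ := a0 + r / 4 with hc
    have hac : a0 < c := by rw [hc]; linarith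
    have hsub : Metric.ball (c : ℂ) (r / 2) ⊆ Metric.ball (a0 : ℂ) r := by
      apply Metric.ball_subset_ball'
      rw [dist_eq_norm]
      have : (c : ℂ) - a0 = ((r / 4 : ℝ) : ℂ) := by rw [hc]; push_cast; ring
      rw [this, Complex.norm_real, Real.norm_eq_abs, abs_of_pos (by positivity)]
      linarith
    have hLc : ContinuousAt (LSeries a) (c : ℂ) :=
      (LSeries_analyticOnNhd a (c : ℂ) (by
        show LSeries.abscissaOfAbsConv a < (((c : ℂ)).re : EReal)
        rw [ha0]
        simp only [ofReal_re]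
        exact_mod_cast hac)).continuousAt
    have hcmem : (c : ℂ) ∈ Metric.ball (a0 : ℂ) r := hsub (Metric.mem_ball_self (by positivity))
    set φ : ℂ → ℂ := fun s => Lg s - W s - ε * (s - 1) ^ k * LSeries a s with hφ
    have hφc : ContinuousAt φ (c : ℂ) := by
      apply ContinuousAt.sub
      · apply ContinuousAt.sub
        · exact (hLgd.differentiableAt (Metric.isOpen_ball.mem_nhds hcmem)).continuousAt
        · exact (hW.differentiableAt ((Pool.Agent.H438R3.BSD.isOpen_re_gt θ).mem_nhds (hre _ hcmem))).continuousAt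
      · apply ContinuousAt.mul _ hLc
        fun_prop
    have hev : ∀ᶠ s in 𝓝 (c : ℂ), exp (φ s) = 1 := by
      filter_upwards [Metric.isOpen_ball.mem_nhds hcmem, hR c hac] with s hs1 hs2
      have h3 := hexpLg s hs1
      rw [hs2] at h3
      have h5 : φ s = Lg s - (W s + ε * (s - 1) ^ k * LSeries a s) := by rw [hφ]; ring
      rw [h5, Complex.exp_sub, h3, div_self (Complex.exp_ne_zero _)]
    have hconst : ∀ᶠ s in 𝓝 (c : ℂ), φ s = φ c := by
      have h2 : ∀ᶠ s in 𝓝 (c : ℂ), ‖φ s - φ c‖ < 2 * Real.pi := by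
        have := (Metric.tendsto_nhds.1 hφc) (2 * Real.pi) (by positivity)
        filter_upwards [this] with s hs
        rwa [dist_eq_norm] at hs
      filter_upwards [hev, h2] with s hs1 hs2
      have h3 : exp (φ s - φ c) = 1 := by
        rw [Complex.exp_sub, hs1, hev.self_of_nhds, div_one]
      rw [Complex.exp_eq_one_iff] at h3
      obtain ⟨n, hn⟩ := h3
      rw [hn] at hs2
      have h4 : ‖(n : ℂ) * (2 * Real.pi * I)‖ = |(n : ℝ)| * (2 * Real.pi) := by
        rw [norm_mul, norm_mul, norm_mul, Complex.norm_I, mul_one, Complex.norm_real,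
          Real.norm_eq_abs, abs_of_pos Real.pi_pos]
        simp
      rw [h4] at hs2
      have h5 : |(n : ℝ)| < 1 := by
        by_contra hcon
        push Not at hcon
        have := mul_le_mul_of_nonneg_right hcon (by positivity : 0 ≤ 2 * Real.pi)
        linarith
      have h6 : n = 0 := by
        have : |n| < 1 := by exact_mod_cast h5
        rwa [Int.abs_lt_one_iff] at this
      rw [h6] at hn
      simp only [Int.cast_zero, zero_mul] at hn
      exact sub_eq_zero.1 hn
    set H : ℂ → ℂ := fun s => ε * (Lg s - W s - φ c) / (s - 1) ^ k with hH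
    have hne1 : ∀ s ∈ Metric.ball (a0 : ℂ) r, (s - 1) ^ k ≠ 0 := by
      intro s hs
      apply pow_ne_zero
      intro h0
      have h2 := hre s hs
      have h3 : s = 1 := sub_eq_zero.1 h0
      rw [h3] at h2
      simp at h2
      linarith
    have hHd : DifferentiableOn ℂ H (Metric.ball (c : ℂ) (r / 2)) := by
      apply DifferentiableOn.div _ (by fun_prop) (fun s hs => hne1 s (hsub hs))
      apply DifferentiableOn.const_mul
      apply DifferentiableOn.sub_const
      exact (hLgd.mono hsub).sub (hW.mono (fun s hs => hre s (hsub hs)))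
    have hHe : ∀ᶠ s in 𝓝 (c : ℂ), H s = LSeries a s := by
      filter_upwards [hconst, Metric.isOpen_ball.mem_nhds hcmem] with s hs1 hs2
      rw [hH]
      simp only
      rw [← hs1, hφ]
      simp only
      rw [div_eq_iff (hne1 s hs2)]
      have : (ε : ℂ) * (Lg s - W s - (Lg s - W s - ε * (s - 1) ^ k * LSeries a s)) =
          (ε * ε) * ((s - 1) ^ k * LSeries a s) := by ring
      rw [this, hε2]
      ring
    have hcontr := landau_disc G hG H c (r / 2) (by positivity) hHd (by
      show LSeries.abscissaOfAbsConv a < (c : EReal)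
      rw [ha0]
      exact_mod_cast hac) hHe (a0 - r / 8) (by rw [hc]; linarith)
      (by rw [hc]; linarith)
    have h7 := hcontr.abscissaOfAbsConv_le
    rw [ha0] at h7
    simp only [ofReal_re] at h7
    have h8 : a0 ≤ a0 - r / 8 := by exact_mod_cast h7
    linarith
  intro s hs
  apply LSeriesSummable_of_abscissaOfAbsConv_lt_re
  exact lt_of_le_of_lt hone (by exact_mod_cast hs)

end Pool.Agent.H390R3.HW
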