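import Pool.Agent.H438R3.BSD.GenN2
import Pool.Agent.H390R3.HW.CoreR

/-! Zero-free continuation to a half plane from continuation along the real axis and a one-sided
bound for the truncated sums, for general local data of weight one. -/

set_option autoImplicit false

open Complex Filter Topology Finset

namespace Pool.Agent.H390R3.HW

open Pool.Agent.H438R3.BSD Pool.Agent.H438R3.BSD.GenN

/-- `P` (given for `Re s > 3/2`) has an analytic continuation along the real axis to `s > θ`. -/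
def AlongReal (θ : ℝ) (P : ℂ → ℂ) : Prop :=
  ∃ Φ : ℂ → ℂ, (∀ σ : ℝ, θ < σ → AnalyticAt ℂ Φ σ) ∧ ∀ s : ℂ, 3 / 2 < s.re → Φ s = P s

/-- `P` (given for `Re s > 3/2`) has a holomorphic continuation without zeros to `Re s > θ`. -/
def ZeroFreeTo (θ : ℝ) (P : ℂ → ℂ) : Prop :=
  ∃ F : ℂ → ℂ, DifferentiableOn ℂ F {s | θ < s.re} ∧ (∀ s : ℂ, θ < s.re → F s ≠ 0) ∧
    ∀ s : ℂ, 3 / 2 < s.re → F s = P s

/-- the last step, once the series converges -/
theorem finish0 (θ : ℝ) (G : ℕ → ℝ) (ε : ℝ) (k : ℕ) (P W : ℂ → ℂ)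
    (hW : DifferentiableOn ℂ W {s | θ < s.re})
    (hrel : ∀ s : ℂ, 3 / 2 < s.re →
      P s = exp (W s + ε * (s - 1) ^ k * LSeries (fun n => (G n : ℂ)) s))
    (hc : ∀ s : ℂ, θ < s.re → LSeriesSummable (fun n => (G n : ℂ)) s) :
    ZeroFreeTo θ P := by
  refine ⟨fun s => exp (W s + ε * (s - 1) ^ k * LSeries (fun n => (G n : ℂ)) s), ?_,
    fun s _ => Complex.exp_ne_zero _, fun s hs => (hrel s hs).symm⟩
  have habs : LSeries.abscissaOfAbsConv (fun n => (G n : ℂ)) ≤ (θ : EReal) :=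
    LSeries.abscissaOfAbsConv_le_of_forall_lt_LSeriesSummable fun y hy =>
      hc y (by simpa using hy)
  have hL : DifferentiableOn ℂ (LSeries (fun n => (G n : ℂ))) {s : ℂ | θ < s.re} := by
    intro s hs
    refine (LSeries_analyticOnNhd _ s ?_).differentiableAt.differentiableWithinAt
    exact lt_of_le_of_lt habs (by exact_mod_cast hs)
  apply DifferentiableOn.cexp
  apply hW.add
  apply DifferentiableOn.mul _ hL
  fun_prop

/-- the common final step -/
theorem finish (θ : ℝ) (hθ : 1 ≤ θ) (G : ℕ → ℝ) (hG : ∀ n, 0 ≤ G n) (ε : ℝ)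
    (hε : ε = 1 ∨ ε = -1) (k : ℕ) (P W : ℂ → ℂ)
    (hW : DifferentiableOn ℂ W {s | θ < s.re})
    (hsum : ∀ s : ℂ, 3 / 2 < s.re → LSeriesSummable (fun n => (G n : ℂ)) s)
    (hrel : ∀ s : ℂ, 3 / 2 < s.re →
      P s = exp (W s + ε * (s - 1) ^ k * LSeries (fun n => (G n : ℂ)) s))
    (hΦ : AlongReal θ (fun s => if ε = 1 then P s else (P s)⁻¹)) :
    ZeroFreeTo θ P := by
  obtain ⟨Φ, hΦa, hΦe⟩ := hΦ
  have hε2 : (ε : ℂ) * ε = 1 := by
    rcases hε with h | h <;> rw [h] <;> push_cast <;> ring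
  have hexp : ∀ E : ℂ, ∀ s : ℂ, 3 / 2 < s.re → P s = exp E → Φ s = exp (ε * E) := by
    intro E s hs hE
    rw [hΦe s hs]
    rcases hε with h | h
    · simp only [h, if_true, hE, Complex.ofReal_one, one_mul]
    · have h1 : ¬ ((-1 : ℝ) = 1) := by norm_num
      simp only [h, if_neg h1, hE]
      rw [← Complex.exp_neg]
      congr 1
      push_cast
      ring
  have hc := coreR θ hθ G hG 1 (Or.inl rfl) k Φ (fun s => ε * W s) hΦa (hW.const_mul _) hsum
    (fun s hs => by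
      rw [hexp _ s hs (hrel s hs)]
      congr 1
      push_cast
      linear_combination ((s - 1) ^ k * LSeries (fun n => (G n : ℂ)) s) * hε2)
    (fun h => absurd h (by norm_num))
  exact finish0 θ G ε k P W hW hrel hc

variable {LL : ℕ → ℂ → ℂ} {ell : ℕ → ℝ} {A : ℝ} {u : ℕ → ℝ}

theorem rel2 (h : Loc LL ell A u) (ε κ C : ℝ) (hε : ε = 1 ∨ ε = -1) (P : ℂ → ℂ)
    (hprod : ∀ s : ℂ, 3 / 2 < s.re → HasProd (fun p : ℕ => exp (LL p s)) (P s)) :
    (∀ s : ℂ, 3 / 2 < s.re → LSeriesSummable (fun n => (AS C (mm ell ε κ) n : ℂ)) s) ∧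
    ∃ W : ℂ → ℂ, DifferentiableOn ℂ W {s | 1 < s.re} ∧ ∀ s : ℂ, 3 / 2 < s.re →
      P s = exp (W s + ε * (s - 1) ^ 2 * LSeries (fun n => (AS C (mm ell ε κ) n : ℂ)) s) := by
  have hε1 : |ε| = 1 := by rcases hε with h | h <;> rw [h] <;> simp
  have hε2 : (ε : ℂ) * ε = 1 := by
    rcases hε with h | h <;> rw [h] <;> push_cast <;> ring
  have hApos := h.pos
  set m := mm ell ε κ with hm
  set Kc : ℝ := |C| + 2 * (|κ| + A) with hKc
  have hKc0 : 0 ≤ Kc := by positivity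
  have hPS : ∀ n : ℕ, 1 ≤ n → |PS C m n| ≤ Kc * (n : ℝ) ^ (1 / 2 : ℝ) :=
    fun n hn => PS_le h ε κ C hε1 n hn
  have hAS : ∀ n : ℕ, 1 ≤ n → |AS C m n| ≤ 2 * Kc * (n : ℝ) ^ (1 / 2 : ℝ) :=
    fun n _ => AS_le hKc0 hPS n
  set E2 : ℂ → ℂ := EE 0 (fun k => PS C m k / k) with hE2
  set W : ℂ → ℂ := fun s => (∑' p, dd LL ell p s) - κ * LSeries pr s - ε * (EE C m s + C)
    - ε * ((s - 1) * E2 s) with hW
  have hWd : DifferentiableOn ℂ W {s | 1 < s.re} := by
    apply DifferentiableOn.sub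
    · apply DifferentiableOn.sub
      · exact (DD_differentiable h).sub (pr_differentiable.const_mul _)
      · exact ((EE_differentiable hKc0 hPS).add_const _).const_mul _
    · apply DifferentiableOn.const_mul
      apply DifferentiableOn.mul (by fun_prop)
      exact EE_differentiable (by positivity : (0 : ℝ) ≤ 2 * Kc) hAS
  have hrel : ∀ s : ℂ, 3 / 2 < s.re →
      P s = exp (W s + ε * (s - 1) ^ 2 * LSeries (fun n => (AS C m n : ℂ)) s) := by
    intro s hs
    have hs1 : 1 < s.re := by linarith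
    have hFe := prod_eq h hs (hprod s hs)
    have hP := P_hasSum h ε κ hs
    have hab := abel_rel hKc0 hPS s hs _ hP
    have hP2 : HasSum (fun n : ℕ => ((PS C m (n + 1) / ((n + 1 : ℕ) : ℝ) : ℝ) : ℂ) * ((n + 1 : ℕ) : ℂ) ^ (1 - s))
        (LSeries (fun n => (PS C m n : ℂ)) s) := by
      have h3 : HasSum (LSeries.term (fun n => (PS C m n : ℂ)) s) (LSeries (fun n => (PS C m n : ℂ)) s) :=
        (PS_summable hPS s hs).hasSum
      have h4 := (hasSum_nat_add_iff' (f := LSeries.term (fun n => (PS C m n : ℂ)) s) 1).2 h3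
      simp only [sum_range_one, LSeries.term_zero, sub_zero] at h4
      have e : (fun n : ℕ => ((PS C m (n + 1) / ((n + 1 : ℕ) : ℝ) : ℝ) : ℂ) * ((n + 1 : ℕ) : ℂ) ^ (1 - s)) =
          fun n => LSeries.term (fun n => (PS C m n : ℂ)) s (n + 1) := by
        funext n
        have hn : ((n + 1 : ℕ) : ℂ) ≠ 0 := by exact_mod_cast (by omega : n + 1 ≠ 0)
        have hns : ((n + 1 : ℕ) : ℂ) ^ s ≠ 0 := by
          rw [Complex.cpow_ne_zero_iff]; exact Or.inl hn
        rw [LSeries.term_of_ne_zero (by omega : n + 1 ≠ 0), sub_eq_add_neg 1 s,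
          Complex.cpow_add _ _ hn, Complex.cpow_one, Complex.cpow_neg]
        push_cast at hn hns ⊢
        field_simp
      rw [e]
      exact h4
    have hab2 := abel_rel (C := 0) (m := fun k => PS C m k / k) (by positivity : (0 : ℝ) ≤ 2 * Kc) hAS s hs _ hP2
    have hab2' : (s - 1) * LSeries (fun n => (AS C m n : ℂ)) s = E2 s + LSeries (fun n => (PS C m n : ℂ)) s := by
      have := hab2
      simp only [Complex.ofReal_zero, add_zero] at this
      exact this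
    rw [hFe]
    congr 1
    have e6 : (ε : ℂ) * (s - 1) ^ 2 * LSeries (fun n => (AS C m n : ℂ)) s =
        ε * ((s - 1) * E2 s) + ε * (EE C m s + C + ε * (κ * LSeries pr s -
          ∑' n : ℕ, (ell n : ℂ) * (n : ℂ) ^ (1 - s))) := by
      have e7 : (ε : ℂ) * (s - 1) ^ 2 * LSeries (fun n => (AS C m n : ℂ)) s =
          ε * ((s - 1) * ((s - 1) * LSeries (fun n => (AS C m n : ℂ)) s)) := by ring
      rw [e7, hab2', ← hab]; ring
    rw [e6, hW]
    simp only
    linear_combination (-(κ * LSeries pr s - ∑' n : ℕ, (ell n : ℂ) * (n : ℂ) ^ (1 - s))) * hε2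
  exact ⟨fun s hs => PS_summable hAS s hs, W, hWd, hrel⟩

/-- logarithmic averages, `θ = 1`, one-sided bound -/
theorem ext2 (h : Loc LL ell A u) (ε κ C : ℝ) (hε : ε = 1 ∨ ε = -1)
    (hG : ∀ n, 0 ≤ AS C (mm ell ε κ) n) (P : ℂ → ℂ)
    (hprod : ∀ s : ℂ, 3 / 2 < s.re → HasProd (fun p : ℕ => exp (LL p s)) (P s))
    (hΦ : AlongReal 1 (fun s => if ε = 1 then P s else (P s)⁻¹)) :
    ZeroFreeTo 1 P := by
  obtain ⟨hs, W, hWd, hrel⟩ := rel2 h ε κ C hε P hprod
  exact finish 1 le_rfl _ hG ε hε 2 P W hWd hs hrel hΦ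

lemma mm_neg (ell : ℕ → ℝ) (κ : ℝ) (n : ℕ) : GenN.mm ell (-1) κ n = -GenN.mm ell 1 κ n := by
  unfold GenN.mm; ring

/-- logarithmic averages, `θ = 1`, two-sided bound -/
theorem ext2abs (h : Loc LL ell A u) (κ C D : ℝ)
    (hG : ∀ n, 0 ≤ AS C (mm ell 1 κ) n) (hG' : ∀ n, 0 ≤ AS D (mm ell (-1) κ) n) (P : ℂ → ℂ)
    (hprod : ∀ s : ℂ, 3 / 2 < s.re → HasProd (fun p : ℕ => exp (LL p s)) (P s)) :
    ZeroFreeTo 1 P := by
  obtain ⟨-, W, hWd, hrel⟩ := rel2 h 1 κ C (Or.inl rfl) P hprod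
  refine finish0 1 _ 1 2 P W hWd hrel fun s hs => ?_
  have hs1 : 1 < s.re := hs
  set m := mm ell 1 κ with hm
  have hneg : ∀ n, AS D (mm ell (-1) κ) n = (C + D) * ∑ k ∈ Icc 1 n, (1 : ℝ) / k - AS C m n := by
    intro n
    unfold AS PS
    rw [zero_add, zero_add, Finset.mul_sum, ← Finset.sum_sub_distrib]
    refine Finset.sum_congr rfl fun k _ => ?_
    have e : ∑ j ∈ Icc 1 k, mm ell (-1) κ j = -∑ j ∈ Icc 1 k, m j := by
      rw [← Finset.sum_neg_distrib]
      exact Finset.sum_congr rfl fun j _ => mm_neg ell κ j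
    show (D + ∑ j ∈ Icc 1 k, GenN.mm ell (-1) κ j) / (k : ℝ) =
      (C + D) * (1 / k) - (C + ∑ j ∈ Icc 1 k, m j) / k
    rw [e]
    ring
  have hCD : 0 ≤ C + D := by
    have h1 := hG 1
    have h2 := hG' 1
    rw [hneg] at h2
    simp only [Finset.Icc_self, Finset.sum_singleton, Nat.cast_one, div_one, mul_one] at h2
    linarith
  have hharm : ∀ n : ℕ, n ≠ 0 → ∑ k ∈ Icc 1 n, (1 : ℝ) / k ≤ 1 + Real.log n := by
    intro n hn
    have h1 := harmonic_le_one_add_log n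
    rw [harmonic_eq_sum_Icc] at h1
    push_cast at h1
    simpa [one_div] using h1
  set δ := (s.re - 1) / 2 with hδ
  have hδ0 : 0 < δ := by rw [hδ]; linarith
  refine LSeriesSummable_of_le_const_mul_rpow (x := 1 + δ) (by rw [hδ]; linarith)
    ⟨(C + D) * (1 + 1 / δ), fun n hn => ?_⟩
  have hn1 : (1 : ℝ) ≤ n := by exact_mod_cast Nat.one_le_iff_ne_zero.2 hn
  have h1 := hG n
  have h2 := hG' n
  rw [hneg] at h2
  have h3 := hharm n hn
  have h4 : Real.log n ≤ (n : ℝ) ^ δ / δ := Real.log_le_rpow_div (by positivity) hδ0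
  have h5 : (1 : ℝ) ≤ (n : ℝ) ^ δ := Real.one_le_rpow hn1 hδ0.le
  rw [Complex.norm_real, Real.norm_eq_abs, abs_of_nonneg h1]
  have e : 1 + δ - 1 = δ := by ring
  rw [e]
  calc AS C m n ≤ (C + D) * ∑ k ∈ Icc 1 n, (1 : ℝ) / k := by linarith
    _ ≤ (C + D) * (1 + Real.log n) := mul_le_mul_of_nonneg_left h3 hCD
    _ ≤ (C + D) * ((n : ℝ) ^ δ + (n : ℝ) ^ δ / δ) :=
        mul_le_mul_of_nonneg_left (by linarith) hCD
    _ = (C + D) * (1 + 1 / δ) * (n : ℝ) ^ δ := by ring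

/-- the Dirichlet series of `n ^ η` -/
theorem hasSum_rpow (η : ℝ) (s : ℂ) (hs : 1 + η < s.re) :
    HasSum (LSeries.term (fun n => (((n : ℝ) ^ η : ℝ) : ℂ)) s) (riemannZeta (s - η)) := by
  have h1 : 1 < (s - η).re := by simp only [sub_re, ofReal_re]; linarith
  rw [zeta_eq_tsum_one_div_nat_cpow h1]
  have h2 : Summable fun n : ℕ => 1 / (n : ℂ) ^ (s - η) :=
    (Complex.summable_one_div_nat_cpow).2 h1
  convert h2.hasSum using 2 with n
  rcases Nat.eq_zero_or_pos n with h0 | h0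
  · rw [h0, LSeries.term_zero]
    have h3 : (s - η) ≠ 0 := by
      intro h; rw [h] at h1; simp at h1; linarith
    simp [Complex.zero_cpow h3]
  · have hn : (n : ℂ) ≠ 0 := by exact_mod_cast h0.ne'
    rw [LSeries.term_of_ne_zero h0.ne', Complex.cpow_sub _ _ hn,
      Complex.ofReal_cpow (Nat.cast_nonneg n)]
    have h4 : (n : ℂ) ^ s ≠ 0 := by rw [Complex.cpow_ne_zero_iff]; exact Or.inl hn
    have h5 : (n : ℂ) ^ (η : ℂ) ≠ 0 := by rw [Complex.cpow_ne_zero_iff]; exact Or.inl hn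
    push_cast
    field_simp

/-- pointwise power bounds, `θ > 1` -/
theorem ext1 (h : Loc LL ell A u) (ε C D η : ℝ) (hε : ε = 1 ∨ ε = -1) (hη : 0 < η)
    (hη2 : η ≤ 1 / 2)
    (hG : ∀ n : ℕ, 0 ≤ PS C (mm ell ε 0) n + D * (n : ℝ) ^ η) (P : ℂ → ℂ)
    (hprod : ∀ s : ℂ, 3 / 2 < s.re → HasProd (fun p : ℕ => exp (LL p s)) (P s))
    (hΦ : AlongReal (1 + η) (fun s => if ε = 1 then P s else (P s)⁻¹)) :
    ZeroFreeTo (1 + η) P := by
  have hε1 : |ε| = 1 := by rcases hε with h | h <;> rw [h] <;> simp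
  have hε2 : (ε : ℂ) * ε = 1 := by
    rcases hε with h | h <;> rw [h] <;> push_cast <;> ring
  have hApos := h.pos
  set m := mm ell ε 0 with hm
  set Kc : ℝ := |C| + 2 * (|(0 : ℝ)| + A) with hKc
  have hKc0 : 0 ≤ Kc := by positivity
  have hPS : ∀ n : ℕ, 1 ≤ n → |PS C m n| ≤ Kc * (n : ℝ) ^ (1 / 2 : ℝ) :=
    fun n hn => PS_le h ε 0 C hε1 n hn
  set G : ℕ → ℝ := fun n => PS C m n + D * (n : ℝ) ^ η with hGdef
  set W : ℂ → ℂ := fun s => (∑' p, dd LL ell p s) - ε * (EE C m s + C)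
    - ε * ((s - 1) * (D * riemannZeta (s - η))) with hW
  have hsub : {s : ℂ | 1 + η < s.re} ⊆ {s : ℂ | 1 < s.re} := by
    intro s hs
    have : 1 + η < s.re := hs
    show 1 < s.re
    linarith
  have hWd : DifferentiableOn ℂ W {s | 1 + η < s.re} := by
    apply DifferentiableOn.sub
    · apply DifferentiableOn.sub
      · exact (DD_differentiable h).mono hsub
      · exact (((EE_differentiable hKc0 hPS).add_const _).const_mul _).mono hsub
    · apply DifferentiableOn.const_mul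
      apply DifferentiableOn.mul (by fun_prop)
      apply DifferentiableOn.const_mul
      intro s hs
      have hs' : 1 + η < s.re := hs
      have hne : s - η ≠ 1 := by
        intro h1
        have h2 := congrArg Complex.re h1
        simp only [sub_re, ofReal_re, one_re] at h2
        linarith
      exact ((differentiableAt_riemannZeta hne).comp s
        (differentiableAt_id.sub_const _)).differentiableWithinAt
  have hGs : ∀ s : ℂ, 3 / 2 < s.re → HasSum (LSeries.term (fun n => (G n : ℂ)) s)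
      (LSeries (fun n => (PS C m n : ℂ)) s + D * riemannZeta (s - η)) := by
    intro s hs
    have h3 : HasSum (LSeries.term (fun n => (PS C m n : ℂ)) s) (LSeries (fun n => (PS C m n : ℂ)) s) :=
      (PS_summable hPS s hs).hasSum
    have h4 := (hasSum_rpow η s (by linarith)).mul_left (D : ℂ)
    have h5 := h3.add h4
    convert h5 using 2 with n
    rcases Nat.eq_zero_or_pos n with h0 | h0
    · rw [h0]; simp
    · rw [LSeries.term_of_ne_zero h0.ne', LSeries.term_of_ne_zero h0.ne',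
        LSeries.term_of_ne_zero h0.ne', hGdef]
      push_cast
      ring
  have hrel : ∀ s : ℂ, 3 / 2 < s.re →
      P s = exp (W s + ε * (s - 1) ^ 1 * LSeries (fun n => (G n : ℂ)) s) := by
    intro s hs
    have hFe := prod_eq h hs (hprod s hs)
    have hP := P_hasSum h ε 0 hs
    have hab := abel_rel hKc0 hPS s hs _ hP
    have hL : LSeries (fun n => (G n : ℂ)) s =
        LSeries (fun n => (PS C m n : ℂ)) s + D * riemannZeta (s - η) := (hGs s hs).tsum_eq
    rw [hFe]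
    congr 1
    rw [hL]
    have e6 : (ε : ℂ) * (s - 1) ^ 1 * (LSeries (fun n => (PS C m n : ℂ)) s +
        D * riemannZeta (s - η)) =
        ε * (EE C m s + C + ε * ((0 : ℝ) * LSeries pr s -
          ∑' n : ℕ, (ell n : ℂ) * (n : ℂ) ^ (1 - s))) + ε * ((s - 1) * (D * riemannZeta (s - η))) := by
      rw [← hab]; ring
    rw [e6, hW]
    simp only [Complex.ofReal_zero]
    linear_combination (∑' n : ℕ, (ell n : ℂ) * (n : ℂ) ^ (1 - s)) * hε2
  exact finish (1 + η) (by linarith) G hG ε hε 1 P W hWd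
    (fun s hs => (hGs s hs).summable) hrel hΦ

lemma PS_zero' (h : Loc LL ell A u) (ε C : ℝ) (n : ℕ) :
    PS C (GenN.mm ell ε 0) n = C - ε * lE ell n := by
  rw [PS_eq h]; ring

/-- from an eventual bound to a bound for all `n` -/
theorem ev1 (h : Loc LL ell A u) (ε C η : ℝ) (hε : ε = 1 ∨ ε = -1) (hη : 0 ≤ η)
    (hb : ∀ᶠ n : ℕ in atTop, ε * lE ell n ≤ C * (n : ℝ) ^ η) :
    ∃ C' D : ℝ, ∀ n : ℕ, 0 ≤ PS C' (GenN.mm ell ε 0) n + D * (n : ℝ) ^ η := by
  obtain ⟨n0, hn0⟩ := eventually_atTop.1 hb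
  refine ⟨∑ k ∈ range n0, |lE ell k|, |C|, fun n => ?_⟩
  rw [PS_zero' h]
  have hpow : 0 ≤ (n : ℝ) ^ η := by positivity
  have hsum : 0 ≤ ∑ k ∈ range n0, |lE ell k| := Finset.sum_nonneg fun _ _ => abs_nonneg _
  rcases Nat.lt_or_ge n n0 with hlt | hge
  · have h1 : |lE ell n| ≤ ∑ k ∈ range n0, |lE ell k| :=
      Finset.single_le_sum (f := fun k => |lE ell k|) (fun _ _ => abs_nonneg _)
        (Finset.mem_range.2 hlt)
    have h2 : ε * lE ell n ≤ |lE ell n| := by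
      rcases hε with h | h
      · rw [h, one_mul]; exact le_abs_self _
      · rw [h]; have := neg_abs_le (lE ell n); linarith
    have h3 : 0 ≤ |C| * (n : ℝ) ^ η := by positivity
    linarith
  · have h1 := hn0 n hge
    have h2 : C * (n : ℝ) ^ η ≤ |C| * (n : ℝ) ^ η :=
      mul_le_mul_of_nonneg_right (le_abs_self C) hpow
    linarith

theorem ev1abs (ell : ℕ → ℝ) (C η : ℝ) (hη : 0 ≤ η)
    (hb : ∀ᶠ n : ℕ in atTop, |lE ell n| ≤ C * (n : ℝ) ^ η) :
    ∃ D : ℝ, ∀ n : ℕ, n ≠ 0 → |lE ell n| ≤ D * (n : ℝ) ^ η := by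
  obtain ⟨n0, hn0⟩ := eventually_atTop.1 hb
  refine ⟨|C| + ∑ k ∈ range n0, |lE ell k|, fun n hn => ?_⟩
  have hn1 : (1 : ℝ) ≤ n := by exact_mod_cast Nat.one_le_iff_ne_zero.2 hn
  have hpow : 1 ≤ (n : ℝ) ^ η := Real.one_le_rpow hn1 hη
  have hsum : 0 ≤ ∑ k ∈ range n0, |lE ell k| := Finset.sum_nonneg fun _ _ => abs_nonneg _
  have hC := abs_nonneg C
  rcases Nat.lt_or_ge n n0 with hlt | hge
  · have h1 : |lE ell n| ≤ ∑ k ∈ range n0, |lE ell k| :=
      Finset.single_le_sum (f := fun k => |lE ell k|) (fun _ _ => abs_nonneg _)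
        (Finset.mem_range.2 hlt)
    nlinarith
  · have h1 := hn0 n hge
    have h2 : C * (n : ℝ) ^ η ≤ |C| * (n : ℝ) ^ η :=
      mul_le_mul_of_nonneg_right (le_abs_self C) (by linarith)
    nlinarith

/-- pointwise power bounds from both sides, `θ ≥ 1` -/
theorem ext1abs (h : Loc LL ell A u) (D η : ℝ) (hη : 0 ≤ η)
    (hG : ∀ n : ℕ, n ≠ 0 → |lE ell n| ≤ D * (n : ℝ) ^ η) (P : ℂ → ℂ)
    (hprod : ∀ s : ℂ, 3 / 2 < s.re → HasProd (fun p : ℕ => exp (LL p s)) (P s)) :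
    ZeroFreeTo (1 + η) P := by
  have hApos := h.pos
  set m := mm ell 1 0 with hm
  set Kc : ℝ := |(0 : ℝ)| + 2 * (|(0 : ℝ)| + A) with hKc
  have hKc0 : 0 ≤ Kc := by positivity
  have hPS : ∀ n : ℕ, 1 ≤ n → |PS 0 m n| ≤ Kc * (n : ℝ) ^ (1 / 2 : ℝ) :=
    fun n hn => PS_le h 1 0 0 (by simp) n hn
  set W : ℂ → ℂ := fun s => (∑' p, dd LL ell p s) - (EE 0 m s) with hW
  have hsub : {s : ℂ | 1 + η < s.re} ⊆ {s : ℂ | 1 < s.re} := by
    intro s hs
    have : 1 + η < s.re := hs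
    show 1 < s.re
    linarith
  have hWd : DifferentiableOn ℂ W {s | 1 + η < s.re} := by
    apply DifferentiableOn.sub
    · exact (DD_differentiable h).mono hsub
    · exact (EE_differentiable hKc0 hPS).mono hsub
  have hrel : ∀ s : ℂ, 3 / 2 < s.re →
      P s = exp (W s + (1 : ℝ) * (s - 1) ^ 1 * LSeries (fun n => (PS 0 m n : ℂ)) s) := by
    intro s hs
    have hFe := prod_eq h hs (hprod s hs)
    have hP := P_hasSum h 1 0 hs
    have hab := abel_rel hKc0 hPS s hs _ hP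
    rw [hFe]
    congr 1
    rw [hW]
    simp only
    have e : ((1 : ℝ) : ℂ) * (s - 1) ^ 1 * LSeries (fun n => (PS 0 m n : ℂ)) s =
        (s - 1) * LSeries (fun n => (PS 0 m n : ℂ)) s := by push_cast; ring
    rw [e, hab]
    push_cast
    ring
  refine finish0 (1 + η) _ 1 1 P W hWd hrel fun s hs => ?_
  have hs1 : 1 + η < s.re := hs
  refine LSeriesSummable_of_le_const_mul_rpow (x := 1 + η) hs1 ⟨D, fun n hn => ?_⟩
  rw [Complex.norm_real, Real.norm_eq_abs, PS_eq h]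
  have e : (0 : ℝ) + 1 * (0 * ∑ p ∈ (Finset.Icc 1 n).filter Nat.Prime, (1 : ℝ) / p - lE ell n) =
      -lE ell n := by ring
  rw [e, abs_neg]
  have e2 : 1 + η - 1 = η := by ring
  rw [e2]
  exact hG n hn

end Pool.Agent.H390R3.HW
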