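import Pool.Agent.H438R3.BSD.GenN3
import Pool.Agent.H390R3.HW.Gen

/-! Zero-free continuation for systems of Frobenius eigenvalues of arbitrary weight `w`, up to a
power of `ζ(s - w/2)`. -/

set_option autoImplicit false

open Complex Filter Topology Finset

namespace Pool.Agent.H390R3.HW.MotQ

open Pool.Agent.H438R3.BSD

/-- For every prime `p` the `α p j`, `j = 1, ..., d`, are complex numbers of absolute value at most
`p^(w/2)` with real power sums. -/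
def Sys (w d : ℕ) (α : ℕ → Fin d → ℂ) : Prop :=
  ∀ p : ℕ, p.Prime → (∀ j, ‖α p j‖ ≤ (p : ℝ) ^ ((w : ℝ) / 2)) ∧ ∀ m : ℕ, (∑ j, α p j ^ m).im = 0

/-- For `Re s > w/2 + 1`, `L` is the Euler product with the local factors
`∏_j (1 - α p j p^(-s))⁻¹`. -/
def IsEuler (w d : ℕ) (α : ℕ → Fin d → ℂ) (L : ℂ → ℂ) : Prop :=
  ∀ s : ℂ, (w : ℝ) / 2 + 1 < s.re →
    HasProd (fun p : Nat.Primes => ∏ j, (1 - α p j * ((p : ℕ) : ℂ) ^ (-s))⁻¹) (L s)

/-- The product over `p ≤ x` of the inverse local factors of `L(s) ζ(s - w/2)^(-r)` at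
`s = (w + 1)/2`. -/
noncomputable def EP (w d r : ℕ) (α : ℕ → Fin d → ℂ) (x : ℕ) : ℝ :=
  ∏ p ∈ (Finset.Icc 1 x).filter Nat.Prime,
    (∏ j, ‖1 - α p j * (p : ℂ) ^ (-(((w : ℂ) + 1) / 2))‖) / (1 - (p : ℝ) ^ (-(1 / 2) : ℝ)) ^ r

/-- The logarithmic average of `log EP(n) - κ log log n` over `2 ≤ n ≤ x`. -/
noncomputable def LA (w d r : ℕ) (α : ℕ → Fin d → ℂ) (κ : ℝ) (x : ℕ) : ℝ :=
  (∑ n ∈ Finset.Icc 2 x, (Real.log (EP w d r α n) - κ * Real.log (Real.log n)) / n) / Real.log x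

/-- `P` (given for `Re s > w/2 + 1`) has an analytic continuation along the real axis to
`s > θ`. -/
def AlongReal (w : ℕ) (θ : ℝ) (P : ℂ → ℂ) : Prop :=
  ∃ Φ : ℂ → ℂ, (∀ σ : ℝ, θ < σ → AnalyticAt ℂ Φ σ) ∧
    ∀ s : ℂ, (w : ℝ) / 2 + 1 < s.re → Φ s = P s

/-- `L(s) = F(s) ζ(s - w/2)^r` for `Re s > w/2 + 1`, with `F` holomorphic and without zeros in
`Re s > θ`. -/
def ContinuesTo (w r : ℕ) (θ : ℝ) (L : ℂ → ℂ) : Prop :=
  ∃ F : ℂ → ℂ, DifferentiableOn ℂ F {s | θ < s.re} ∧ (∀ s : ℂ, θ < s.re → F s ≠ 0) ∧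
    ∀ s : ℂ, (w : ℝ) / 2 + 1 < s.re → L s = F s * riemannZeta (s - w / 2) ^ r

variable {w d : ℕ} {α : ℕ → Fin d → ℂ}

/-- the real scaling factor -/
noncomputable def sc (w p : ℕ) : ℝ := (p : ℝ) ^ (-(((w : ℝ) - 1) / 2))

/-- the normalised eigenvalues -/
noncomputable def be (w : ℕ) (α : ℕ → Fin d → ℂ) (p : ℕ) (j : Fin d) : ℂ := α p j * (sc w p : ℝ)

lemma sc_cpow (w p : ℕ) : ((sc w p : ℝ) : ℂ) = (p : ℂ) ^ (-(((w : ℂ) - 1) / 2)) := by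
  unfold sc
  rw [Complex.ofReal_cpow (Nat.cast_nonneg p)]
  push_cast
  rfl

lemma be_norm (h : Sys w d α) {p : ℕ} (hp : p.Prime) (j : Fin d) :
    ‖be w α p j‖ ≤ (p : ℝ) ^ (1 / 2 : ℝ) := by
  have hp0 : (0 : ℝ) < p := by exact_mod_cast hp.pos
  unfold be
  rw [norm_mul, Complex.norm_real, Real.norm_eq_abs, abs_of_nonneg (by unfold sc; positivity)]
  calc ‖α p j‖ * sc w p ≤ (p : ℝ) ^ ((w : ℝ) / 2) * sc w p :=
        mul_le_mul_of_nonneg_right ((h p hp).1 j) (by unfold sc; positivity)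
    _ = (p : ℝ) ^ (1 / 2 : ℝ) := by
        unfold sc
        rw [← Real.rpow_add hp0]
        congr 1
        ring

lemma be_real (h : Sys w d α) {p : ℕ} (hp : p.Prime) (m : ℕ) :
    ((∑ j, be w α p j ^ m).re : ℂ) = ∑ j, be w α p j ^ m := by
  have e : ∑ j, be w α p j ^ m = (∑ j, α p j ^ m) * ((sc w p ^ m : ℝ) : ℂ) := by
    unfold be
    rw [Finset.sum_mul]
    refine Finset.sum_congr rfl fun j _ => ?_
    rw [mul_pow]
    push_cast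
    rfl
  have h2 : (∑ j, be w α p j ^ m).im = 0 := by
    rw [e, Complex.im_mul_ofReal, (h p hp).2 m, zero_mul]
  refine Complex.ext (by simp) ?_
  rw [Complex.ofReal_im, h2]

/-- the normalised traces -/
noncomputable def cc (w r : ℕ) (α : ℕ → Fin d → ℂ) (p m : ℕ) : ℝ :=
  (∑ j, be w α p j ^ m).re - r * (p : ℝ) ^ ((m : ℝ) / 2)

lemma cc_le (h : Sys w d α) (r : ℕ) {p : ℕ} (hp : p.Prime) (m : ℕ) :
    |cc w r α p m| ≤ ((d : ℝ) + r) * (p : ℝ) ^ ((m : ℝ) / 2) := by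
  have hp0 : (0 : ℝ) < p := by exact_mod_cast hp.pos
  have h1 : |(∑ j, be w α p j ^ m).re| ≤ d * (p : ℝ) ^ ((m : ℝ) / 2) := by
    refine (Complex.abs_re_le_norm _).trans ((norm_sum_le _ _).trans ?_)
    calc ∑ j : Fin d, ‖be w α p j ^ m‖ ≤ ∑ j : Fin d, (p : ℝ) ^ ((m : ℝ) / 2) := by
          refine Finset.sum_le_sum fun j _ => ?_
          rw [norm_pow]
          refine (pow_le_pow_left₀ (norm_nonneg _) (be_norm h hp j) m).trans (le_of_eq ?_)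
          rw [← Real.rpow_natCast, ← Real.rpow_mul hp0.le]
          congr 1
          ring
      _ = d * (p : ℝ) ^ ((m : ℝ) / 2) := by simp
  have h2 : |(r : ℝ) * (p : ℝ) ^ ((m : ℝ) / 2)| = r * (p : ℝ) ^ ((m : ℝ) / 2) :=
    abs_of_nonneg (by positivity)
  unfold cc
  calc _ ≤ |(∑ j, be w α p j ^ m).re| + |(r : ℝ) * (p : ℝ) ^ ((m : ℝ) / 2)| := abs_sub _ _
    _ ≤ d * (p : ℝ) ^ ((m : ℝ) / 2) + r * (p : ℝ) ^ ((m : ℝ) / 2) := by
        rw [h2]; linarith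
    _ = _ := by ring

/-- the logarithm of the local factor -/
noncomputable def lfac (w r : ℕ) (α : ℕ → Fin d → ℂ) (s : ℂ) (p : ℕ) : ℂ :=
  (∑ j, -Complex.log (1 - be w α p j * (p : ℂ) ^ (-s))) -
    r * -Complex.log (1 - (p : ℂ) ^ (1 / 2 : ℂ) * (p : ℂ) ^ (-s))

lemma norm_lt' {p : ℕ} (hp : p.Prime) {z : ℂ} (hz : ‖z‖ ≤ (p : ℝ) ^ (1 / 2 : ℝ)) (s : ℂ)
    (hs : 1 ≤ s.re) : ‖z * (p : ℂ) ^ (-s)‖ < 1 := by
  have hp0 : (0 : ℝ) < p := by exact_mod_cast hp.pos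
  have hp1 : (1 : ℝ) < p := by exact_mod_cast hp.one_lt
  rw [norm_mul, Complex.norm_natCast_cpow_of_pos hp.pos]
  calc ‖z‖ * (p : ℝ) ^ (-s).re ≤ (p : ℝ) ^ (1 / 2 : ℝ) * (p : ℝ) ^ (-s).re :=
        mul_le_mul_of_nonneg_right hz (by positivity)
    _ = (p : ℝ) ^ (1 / 2 - s.re) := by rw [← Real.rpow_add hp0]; congr 1
    _ < 1 := Real.rpow_lt_one_of_one_lt_of_neg hp1 (by linarith)

lemma norm_half {p : ℕ} (hp : p.Prime) : ‖(p : ℂ) ^ (1 / 2 : ℂ)‖ ≤ (p : ℝ) ^ (1 / 2 : ℝ) := by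
  rw [Complex.norm_natCast_cpow_of_pos hp.pos]
  norm_num

lemma ser {p : ℕ} (hp : p.Prime) {z : ℂ} (hz : ‖z‖ ≤ (p : ℝ) ^ (1 / 2 : ℝ)) (s : ℂ)
    (hs : 1 ≤ s.re) :
    HasSum (fun m : ℕ => (z * (p : ℂ) ^ (-s)) ^ (m + 1) / ((m + 1 : ℕ) : ℂ))
      (-Complex.log (1 - z * (p : ℂ) ^ (-s))) := by
  have h2 := Complex.hasSum_taylorSeries_neg_log (norm_lt' hp hz s hs)
  have h3 := (hasSum_nat_add_iff' (f := fun n : ℕ => (z * (p : ℂ) ^ (-s)) ^ n / n) 1).2 h2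
  simp only [sum_range_one, Nat.cast_zero, div_zero, sub_zero] at h3
  exact h3

lemma local_series (h : Sys w d α) (r : ℕ) {p : ℕ} (hp : p.Prime) (s : ℂ) (hs : 1 ≤ s.re) :
    HasSum (fun m : ℕ => (cc w r α p (m + 1) : ℂ) *
      (p : ℂ) ^ (-((m + 1 : ℂ) * s)) / (m + 1 : ℂ)) (lfac w r α s p) := by
  have h1 : HasSum (fun m : ℕ => (∑ j, (be w α p j * (p : ℂ) ^ (-s)) ^ (m + 1) /
      ((m + 1 : ℕ) : ℂ)) - r * (((p : ℂ) ^ (1 / 2 : ℂ) * (p : ℂ) ^ (-s)) ^ (m + 1) /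
      ((m + 1 : ℕ) : ℂ))) (lfac w r α s p) := by
    unfold lfac
    exact (hasSum_sum fun j _ => ser hp (be_norm h hp j) s hs).sub
      ((ser hp (norm_half hp) s hs).mul_left _)
  suffices e : (fun m : ℕ => (cc w r α p (m + 1) : ℂ) *
      (p : ℂ) ^ (-((m + 1 : ℂ) * s)) / (m + 1 : ℂ)) = fun m : ℕ =>
      (∑ j, (be w α p j * (p : ℂ) ^ (-s)) ^ (m + 1) /
      ((m + 1 : ℕ) : ℂ)) - r * (((p : ℂ) ^ (1 / 2 : ℂ) * (p : ℂ) ^ (-s)) ^ (m + 1) /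
      ((m + 1 : ℕ) : ℂ)) by
    rw [e]; exact h1
  funext m
  have e2 : (p : ℂ) ^ (-((m + 1 : ℂ) * s)) = ((p : ℂ) ^ (-s)) ^ (m + 1) := by
    rw [← Complex.cpow_nat_mul]
    congr 1
    push_cast
    ring
  have e3 : (((p : ℝ) ^ (((m + 1 : ℕ) : ℝ) / 2) : ℝ) : ℂ) = ((p : ℂ) ^ (1 / 2 : ℂ)) ^ (m + 1) := by
    rw [← Complex.cpow_nat_mul, Complex.ofReal_cpow (Nat.cast_nonneg p)]
    congr 1
    push_cast
    ring
  unfold cc
  rw [Complex.ofReal_sub, Complex.ofReal_mul, e3, be_real h hp, e2, sub_mul, sub_div,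
    Finset.sum_mul, Finset.sum_div]
  congr 1
  · refine Finset.sum_congr rfl fun j _ => ?_
    rw [mul_pow]
    push_cast
    ring
  · rw [mul_pow]
    push_cast
    ring

lemma one_sub_ne {p : ℕ} (hp : p.Prime) {z : ℂ} (hz : ‖z‖ ≤ (p : ℝ) ^ (1 / 2 : ℝ)) (s : ℂ)
    (hs : 1 ≤ s.re) : 1 - z * (p : ℂ) ^ (-s) ≠ 0 := by
  intro h0
  have h4 := norm_lt' hp hz s hs
  have h5 : z * (p : ℂ) ^ (-s) = 1 := (sub_eq_zero.1 h0).symm
  rw [h5, norm_one] at h4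
  exact lt_irrefl _ h4

lemma half_shift {p : ℕ} (hp : p.Prime) (s : ℂ) :
    (p : ℂ) ^ (1 / 2 : ℂ) * (p : ℂ) ^ (-s) = (p : ℂ) ^ (-(s - 1 / 2)) := by
  have hc : (p : ℂ) ≠ 0 := by exact_mod_cast hp.ne_zero
  rw [← Complex.cpow_add _ _ hc]
  congr 1
  ring

lemma fac_shift {p : ℕ} (hp : p.Prime) (s : ℂ) (j : Fin d) :
    be w α p j * (p : ℂ) ^ (-s) = α p j * (p : ℂ) ^ (-(s + ((w : ℂ) - 1) / 2)) := by
  have hc : (p : ℂ) ≠ 0 := by exact_mod_cast hp.ne_zero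
  unfold be
  rw [sc_cpow, mul_assoc, ← Complex.cpow_add _ _ hc]
  congr 2
  ring

lemma exp_lfac (h : Sys w d α) (r : ℕ) {p : ℕ} (hp : p.Prime) (s : ℂ) (hs : 1 ≤ s.re) :
    exp (lfac w r α s p) = (∏ j, (1 - α p j * (p : ℂ) ^ (-(s + ((w : ℂ) - 1) / 2)))⁻¹) *
      (((1 - (p : ℂ) ^ (-(s - 1 / 2)))⁻¹) ^ r)⁻¹ := by
  unfold lfac
  rw [Complex.exp_sub, Complex.exp_sum, div_eq_mul_inv]
  congr 1
  · refine Finset.prod_congr rfl fun j _ => ?_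
    rw [Complex.exp_neg, Complex.exp_log (one_sub_ne hp (be_norm h hp j) s hs), fac_shift hp]
  · rw [Complex.exp_nat_mul, Complex.exp_neg,
      Complex.exp_log (one_sub_ne hp (norm_half hp) s hs), half_shift hp]


/-- the inverse local factor at the centre, with the power of `ζ` removed -/
noncomputable def ctr (w r : ℕ) (α : ℕ → Fin d → ℂ) (p : ℕ) : ℝ :=
  (∏ j, ‖1 - α p j * (p : ℂ) ^ (-(((w : ℂ) + 1) / 2))‖) / (1 - (p : ℝ) ^ (-(1 / 2) : ℝ)) ^ r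

lemma LLc_eq (h : Sys w d α) (r : ℕ) (s : ℂ) (hs : 1 ≤ s.re) (n : ℕ) :
    GenN.LLc Nat.Prime (cc w r α) n s = if n.Prime then lfac w r α s n else 0 := by
  unfold GenN.LLc
  split_ifs with hn
  · exact (local_series h r hn s hs).tsum_eq
  · rfl

lemma half_lt {p : ℕ} (hp : p.Prime) : 0 < 1 - (p : ℝ) ^ (-(1 / 2) : ℝ) := by
  have hp1 : (1 : ℝ) < p := by exact_mod_cast hp.one_lt
  have := Real.rpow_lt_one_of_one_lt_of_neg hp1 (show (-(1 / 2) : ℝ) < 0 by norm_num)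
  linarith

lemma ctr_term (p : ℕ) (hp : p.Prime) (j : Fin d) :
    be w α p j * (p : ℂ) ^ (-(1 : ℂ)) = α p j * (p : ℂ) ^ (-(((w : ℂ) + 1) / 2)) := by
  rw [fac_shift hp]
  congr 3
  ring

lemma term_pos (h : Sys w d α) {p : ℕ} (hp : p.Prime) (j : Fin d) :
    (0 : ℝ) < ‖1 - α p j * (p : ℂ) ^ (-(((w : ℂ) + 1) / 2))‖ := by
  rw [norm_pos_iff, ← ctr_term p hp j]
  exact one_sub_ne hp (be_norm h hp j) 1 (by simp)

lemma ctr_pos (h : Sys w d α) (r : ℕ) {p : ℕ} (hp : p.Prime) : 0 < ctr w r α p :=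
  div_pos (Finset.prod_pos fun j _ => term_pos h hp j) (pow_pos (half_lt hp) r)

lemma ellc_eq (h : Sys w d α) (r : ℕ) (n : ℕ) : GenN.ellc Nat.Prime (cc w r α) n =
    if n.Prime then Real.log (ctr w r α n) else 0 := by
  have h1 : ((GenN.ellc Nat.Prime (cc w r α) n : ℝ) : ℂ) =
      -GenN.LLc Nat.Prime (cc w r α) n 1 := by
    unfold GenN.ellc GenN.LLc
    split_ifs with hn
    · push_cast
      congr 1
      refine tsum_congr fun m => ?_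
      rw [Complex.ofReal_cpow (Nat.cast_nonneg n)]
      push_cast
      rw [mul_one]
    · simp
  have h2 : GenN.ellc Nat.Prime (cc w r α) n = (-GenN.LLc Nat.Prime (cc w r α) n 1).re := by
    rw [← h1, Complex.ofReal_re]
  rw [h2, LLc_eq h r 1 (by simp) n]
  split_ifs with hn
  · unfold lfac ctr
    rw [Real.log_div (Finset.prod_pos fun j _ => term_pos h hn j).ne'
      (pow_pos (half_lt hn) r).ne', Real.log_prod fun j _ => (term_pos h hn j).ne',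
      Real.log_pow, Complex.neg_re, Complex.sub_re, Complex.re_sum]
    have e1 : ∀ j : Fin d, (-Complex.log (1 - be w α n j * (n : ℂ) ^ (-(1 : ℂ)))).re =
        -Real.log ‖1 - α n j * (n : ℂ) ^ (-(((w : ℂ) + 1) / 2))‖ := by
      intro j
      rw [Complex.neg_re, Complex.log_re, ctr_term n hn j]
    have e2 : ((r : ℂ) * -Complex.log (1 - (n : ℂ) ^ (1 / 2 : ℂ) * (n : ℂ) ^ (-(1 : ℂ)))).re =
        -(r * Real.log (1 - (n : ℝ) ^ (-(1 / 2) : ℝ))) := by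
      have e3 : (1 - (n : ℂ) ^ (1 / 2 : ℂ) * (n : ℂ) ^ (-(1 : ℂ))) =
          ((1 - (n : ℝ) ^ (-(1 / 2) : ℝ) : ℝ) : ℂ) := by
        rw [half_shift hn, Complex.ofReal_sub, Complex.ofReal_cpow (Nat.cast_nonneg n)]
        push_cast
        congr 2
        norm_num
      rw [e3, ← Complex.ofReal_log (half_lt hn).le]
      have e4 : ((r : ℂ) * -((Real.log (1 - (n : ℝ) ^ (-(1 / 2) : ℝ)) : ℝ) : ℂ)) =
          ((-(r * Real.log (1 - (n : ℝ) ^ (-(1 / 2) : ℝ))) : ℝ) : ℂ) := by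
        push_cast; ring
      rw [e4, Complex.ofReal_re]
    rw [Finset.sum_congr rfl fun j _ => e1 j, e2, Finset.sum_neg_distrib]
    ring
  · simp

lemma log_EP (h : Sys w d α) (r : ℕ) (x : ℕ) :
    Real.log (EP w d r α x) = GenN.lE (GenN.ellc Nat.Prime (cc w r α)) x := by
  have e : EP w d r α x = ∏ p ∈ (Finset.Icc 1 x).filter Nat.Prime, ctr w r α p := rfl
  rw [e, Real.log_prod fun p hp => (ctr_pos h r (Finset.mem_filter.1 hp).2).ne']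
  unfold GenN.lE
  rw [Finset.sum_filter]
  refine Finset.sum_congr rfl fun n _ => ?_
  rw [ellc_eq h]

lemma prod (h : Sys w d α) (r : ℕ) {L : ℂ → ℂ} (hL : IsEuler w d α L) (s : ℂ)
    (hs : 3 / 2 < s.re) :
    HasProd (fun n : ℕ => exp (GenN.LLc Nat.Prime (cc w r α) n s))
      (L (s + ((w : ℂ) - 1) / 2) * (riemannZeta (s - 1 / 2) ^ r)⁻¹) := by
  have hs1 : 1 ≤ s.re := by linarith
  have h0 := hL (s + ((w : ℂ) - 1) / 2) (by
    have : (s + ((w : ℂ) - 1) / 2).re = s.re + ((w : ℝ) - 1) / 2 := by simp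
    rw [this]
    linarith)
  have hre : 1 < (s - 1 / 2).re := by
    have : (s - 1 / 2).re = s.re - 1 / 2 := by simp
    rw [this]
    linarith
  have h1 := riemannZeta_eulerProduct_hasProd hre
  have hz : riemannZeta (s - 1 / 2) ≠ 0 := riemannZeta_ne_zero_of_one_lt_re hre
  have h2 : HasProd (fun p : Nat.Primes => ((1 - ((p : ℕ) : ℂ) ^ (-(s - 1 / 2)))⁻¹) ^ r)
      (riemannZeta (s - 1 / 2) ^ r) := h1.map (powMonoidHom r) (continuous_pow r)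
  have h3 := h0.mul (h2.inv₀ (pow_ne_zero r hz))
  have h4 : HasProd ((fun n : ℕ => exp (GenN.LLc Nat.Prime (cc w r α) n s)) ∘
      (Subtype.val : Nat.Primes → ℕ)) (L (s + ((w : ℂ) - 1) / 2) *
        (riemannZeta (s - 1 / 2) ^ r)⁻¹) := by
    refine h3.congr_fun fun p => ?_
    show exp (GenN.LLc Nat.Prime (cc w r α) p.1 s) = _
    rw [LLc_eq h r s hs1, if_pos p.2, exp_lfac h r p.2 s hs1]
  refine (Subtype.val_injective.hasProd_iff ?_).1 h4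
  intro n hn
  have hnp : ¬ n.Prime := fun hp => hn ⟨⟨n, hp⟩, rfl⟩
  rw [LLc_eq h r s hs1, if_neg hnp, Complex.exp_zero]

lemma loc (h : Sys w d α) (r : ℕ) :
    GenN.Loc (GenN.LLc Nat.Prime (cc w r α)) (GenN.ellc Nat.Prime (cc w r α)) (4 * ((d : ℝ) + r))
      (fun n => 4 * ((d : ℝ) + r) * ((n : ℝ) ^ (-(3 / 2) : ℝ) +
        if n.Prime ∧ ¬ n.Prime then (1 : ℝ) / n else 0)) :=
  GenN.locC (fun _ h => h.two_le) (by positivity) (fun _ hp m _ => cc_le h r hp m) (by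
    have : (fun n : ℕ => if n.Prime ∧ ¬ n.Prime then (1 : ℝ) / n else 0) = fun _ => 0 := by
      funext n
      rw [if_neg]
      rintro ⟨h1, h2⟩
      exact h2 h1
    rw [this]
    exact summable_zero)


/-- the normalised function -/
noncomputable def PP (w r : ℕ) (L : ℂ → ℂ) (s : ℂ) : ℂ :=
  L (s + ((w : ℂ) - 1) / 2) * (riemannZeta (s - 1 / 2) ^ r)⁻¹

lemma re_shift (w : ℕ) (s : ℂ) : (s + ((w : ℂ) - 1) / 2).re = s.re + ((w : ℝ) - 1) / 2 := by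
  simp

lemma along (w : ℕ) (θ : ℝ) (Q P : ℂ → ℂ)
    (hQP : ∀ s : ℂ, 3 / 2 < s.re → Q (s + ((w : ℂ) - 1) / 2) = P s)
    (h : AlongReal w (θ + ((w : ℝ) - 1) / 2) Q) : HW.AlongReal θ P := by
  obtain ⟨Φ, hΦ, heq⟩ := h
  refine ⟨fun s => Φ (s + ((w : ℂ) - 1) / 2), fun σ hσ => ?_, fun s hs => ?_⟩
  · have h1 := hΦ (σ + ((w : ℝ) - 1) / 2) (by linarith)
    have e : ((σ + ((w : ℝ) - 1) / 2 : ℝ) : ℂ) = (fun s : ℂ => s + ((w : ℂ) - 1) / 2) σ := by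
      push_cast; rfl
    rw [e] at h1
    exact AnalyticAt.comp (g := Φ) (f := fun s : ℂ => s + ((w : ℂ) - 1) / 2) h1 (by fun_prop)
  · show Φ (s + ((w : ℂ) - 1) / 2) = P s
    rw [heq _ (by rw [re_shift]; linarith), hQP s hs]

lemma cont (w r : ℕ) (θ : ℝ) (L : ℂ → ℂ) (h : HW.ZeroFreeTo θ (PP w r L)) :
    ContinuesTo w r (θ + ((w : ℝ) - 1) / 2) L := by
  obtain ⟨F, hF, hF0, heq⟩ := h
  have hre : ∀ s : ℂ, (s - ((w : ℂ) - 1) / 2).re = s.re - ((w : ℝ) - 1) / 2 := fun s => by simp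
  refine ⟨fun s => F (s - ((w : ℂ) - 1) / 2), ?_, fun s hs => ?_, fun s hs => ?_⟩
  · refine hF.comp (by fun_prop) fun s hs => ?_
    have hs' : θ + ((w : ℝ) - 1) / 2 < s.re := hs
    show θ < (s - ((w : ℂ) - 1) / 2).re
    rw [hre]
    linarith
  · refine hF0 _ ?_
    rw [hre]
    linarith
  · have h1 := heq (s - ((w : ℂ) - 1) / 2) (by rw [hre]; linarith)
    show L s = F (s - ((w : ℂ) - 1) / 2) * riemannZeta (s - w / 2) ^ r
    rw [h1]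
    unfold PP
    have e1 : s - ((w : ℂ) - 1) / 2 + ((w : ℂ) - 1) / 2 = s := by ring
    have e2 : s - ((w : ℂ) - 1) / 2 - 1 / 2 = s - w / 2 := by ring
    rw [e1, e2]
    have hz : riemannZeta (s - w / 2) ≠ 0 := by
      apply riemannZeta_ne_zero_of_one_lt_re
      have : (s - (w : ℂ) / 2).re = s.re - (w : ℝ) / 2 := by simp
      rw [this]
      linarith
    rw [mul_assoc, inv_mul_cancel₀ (pow_ne_zero r hz), mul_one]

lemma pos_eq (w r : ℕ) (L : ℂ → ℂ) (s : ℂ) :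
    (fun s => L s / riemannZeta (s - w / 2) ^ r) (s + ((w : ℂ) - 1) / 2) = PP w r L s := by
  show L (s + ((w : ℂ) - 1) / 2) / riemannZeta (s + ((w : ℂ) - 1) / 2 - w / 2) ^ r = _
  unfold PP
  have e2 : s + ((w : ℂ) - 1) / 2 - w / 2 = s - 1 / 2 := by ring
  rw [e2, div_eq_mul_inv]

lemma neg_eq (w r : ℕ) (L : ℂ → ℂ) (s : ℂ) :
    (fun s => riemannZeta (s - w / 2) ^ r / L s) (s + ((w : ℂ) - 1) / 2) = (PP w r L s)⁻¹ := by
  rw [← pos_eq, inv_div]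

end Pool.Agent.H390R3.HW.MotQ
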